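import Pool.Agent.Helper62.MU.St2

/-! Project MU part 2 (MP_ae3a4d_gt): module MO (moments of the absolute value on the sphere). -/

set_option autoImplicit false

open MeasureTheory Metric Set Filter Topology Polynomial
open scoped RealInnerProductSpace ContDiff

namespace Pool.Agent.Helper6.MU

open Pool.Agent.Helper62.MU2 Pool.Agent.Helper62.Mink

/-- Gaussian moments on the half line -/
noncomputable def Jg (q : ℕ) : ℝ := ∫ r in Ioi (0 : ℝ), r ^ q * Real.exp (-(r ^ 2 / 2))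

lemma Jg_eq (q : ℕ) :
    Jg q = (1 / 2 : ℝ) ^ (-((q : ℝ) + 1) / 2) * (1 / 2) * Real.Gamma (((q : ℝ) + 1) / 2) := by
  have hq : (-1 : ℝ) < (q : ℝ) := by
    have := Nat.cast_nonneg (α := ℝ) q
    linarith
  have h := integral_rpow_mul_exp_neg_mul_rpow (p := 2) (q := (q : ℝ)) (b := 1 / 2)
    (by norm_num) hq (by norm_num)
  rw [← h]
  unfold Jg
  refine setIntegral_congr_fun measurableSet_Ioi fun x _ => ?_
  simp only [Real.rpow_natCast, Real.rpow_two]
  congr 2
  ring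

lemma Jg_pos (q : ℕ) : 0 < Jg q := by
  rw [Jg_eq]
  have : 0 < Real.Gamma (((q : ℝ) + 1) / 2) := Real.Gamma_pos_of_pos (by positivity)
  positivity

lemma Jg_succ (q : ℕ) : Jg (q + 2) = ((q : ℝ) + 1) * Jg q := by
  rw [Jg_eq, Jg_eq]
  have h1 : (((q + 2 : ℕ) : ℝ) + 1) / 2 = ((q : ℝ) + 1) / 2 + 1 := by push_cast; ring
  have h2 : -(((q + 2 : ℕ) : ℝ) + 1) / 2 = -((q : ℝ) + 1) / 2 + (-1) := by push_cast; ring
  rw [h1, h2, Real.Gamma_add_one (by positivity), Real.rpow_add (by norm_num), Real.rpow_neg_one]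
  ring

/-- one dimensional moments -/
noncomputable def Gq (q : ℕ) : ℝ := ∫ s : ℝ, s ^ q * Real.exp (-(s ^ 2 / 2))

/-- one dimensional moments with the absolute value -/
noncomputable def Aq (q : ℕ) : ℝ := ∫ s : ℝ, |s| * s ^ q * Real.exp (-(s ^ 2 / 2))

lemma Gq_even (j : ℕ) : Gq (2 * j) = 2 * Jg (2 * j) := by
  unfold Gq Jg
  rw [← integral_comp_abs (f := fun r => r ^ (2 * j) * Real.exp (-(r ^ 2 / 2)))]
  refine integral_congr_ae (Filter.Eventually.of_forall fun s => ?_)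
  simp only [sq_abs, (even_two_mul j).pow_abs]

lemma Aq_even (j : ℕ) : Aq (2 * j) = 2 * Jg (2 * j + 1) := by
  unfold Aq Jg
  rw [← integral_comp_abs (f := fun r => r ^ (2 * j + 1) * Real.exp (-(r ^ 2 / 2)))]
  refine integral_congr_ae (Filter.Eventually.of_forall fun s => ?_)
  show |s| * s ^ (2 * j) * Real.exp (-(s ^ 2 / 2)) =
    |s| ^ (2 * j + 1) * Real.exp (-(|s| ^ 2 / 2))
  rw [sq_abs, pow_succ |s| (2 * j), (even_two_mul j).pow_abs]
  ring

lemma Gq_odd (j : ℕ) : Gq (2 * j + 1) = 0 := by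
  have h := integral_neg_eq_self (fun s : ℝ => s ^ (2 * j + 1) * Real.exp (-(s ^ 2 / 2))) volume
  have h2 : ∫ s : ℝ, (-s) ^ (2 * j + 1) * Real.exp (-((-s) ^ 2 / 2)) = -Gq (2 * j + 1) := by
    unfold Gq
    rw [← integral_neg]
    refine integral_congr_ae (Filter.Eventually.of_forall fun s => ?_)
    simp only [neg_sq, (odd_two_mul_add_one j).neg_pow]
    ring
  rw [h2] at h
  change -Gq (2 * j + 1) = Gq (2 * j + 1) at h
  linarith

lemma Aq_odd (j : ℕ) : Aq (2 * j + 1) = 0 := by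
  have h := integral_neg_eq_self
    (fun s : ℝ => |s| * s ^ (2 * j + 1) * Real.exp (-(s ^ 2 / 2))) volume
  have h2 : ∫ s : ℝ, |(-s)| * (-s) ^ (2 * j + 1) * Real.exp (-((-s) ^ 2 / 2)) =
      -Aq (2 * j + 1) := by
    unfold Aq
    rw [← integral_neg]
    refine integral_congr_ae (Filter.Eventually.of_forall fun s => ?_)
    simp only [neg_sq, abs_neg, (odd_two_mul_add_one j).neg_pow]
    ring
  rw [h2] at h
  change -Aq (2 * j + 1) = Aq (2 * j + 1) at h
  linarith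

/-- the Gaussian integral of a monomial -/
lemma gint_MO (m a b : ℕ) :
    ∫ w : E (m + 2), (|w 0| * w 0 ^ a * w 1 ^ b) * Real.exp (-(‖w‖ ^ 2 / 2)) =
      Aq a * (Gq b * Gq 0 ^ m) := by
  set f : Fin (m + 2) → ℝ → ℝ := fun i s =>
    (if i = 0 then |s| * s ^ a else if i = 1 then s ^ b else 1) * Real.exp (-(s ^ 2 / 2)) with hf
  have h01 : (1 : Fin (m + 2)) ≠ 0 := by
    intro h
    have := congrArg Fin.val h
    simp at this
  have h1 : ∫ w : E (m + 2), (|w 0| * w 0 ^ a * w 1 ^ b) * Real.exp (-(‖w‖ ^ 2 / 2)) =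
      ∫ x : Fin (m + 2) → ℝ, ∏ i, f i (x i) := by
    rw [← (PiLp.volume_preserving_toLp (Fin (m + 2))).integral_comp
      (MeasurableEquiv.toLp 2 (Fin (m + 2) → ℝ)).measurableEmbedding]
    refine integral_congr_ae (Filter.Eventually.of_forall fun x => ?_)
    simp only [hf]
    rw [Finset.prod_mul_distrib, ← Real.exp_sum, EuclideanSpace.real_norm_sq_eq]
    congr 1
    · rw [Fin.prod_univ_succ, Fin.prod_univ_succ]
      have e2 : ∏ i : Fin m, (if (i.succ.succ : Fin (m + 2)) = 0 then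
          |x i.succ.succ| * x i.succ.succ ^ a
          else if (i.succ.succ : Fin (m + 2)) = 1 then x i.succ.succ ^ b else 1) = 1 := by
        refine Finset.prod_eq_one fun i _ => ?_
        have g0 : i.succ.succ ≠ (0 : Fin (m + 2)) := Fin.succ_ne_zero _
        have g1 : i.succ.succ ≠ (1 : Fin (m + 2)) := by
          intro h
          have := congrArg Fin.val h
          simp at this
        rw [if_neg g0, if_neg g1]
      have e1 : (Fin.succ 0 : Fin (m + 2)) = 1 := rfl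
      rw [e2, e1, if_pos rfl, if_neg h01, if_pos rfl, mul_one]
    · congr 1
      rw [Finset.sum_neg_distrib, Finset.sum_div]
  rw [h1, integral_fintype_prod_volume_eq_prod, Fin.prod_univ_succ, Fin.prod_univ_succ]
  have e0 : ∫ s, f 0 s = Aq a := by
    simp only [hf, Aq, if_true]
  have e1 : ∫ s, f (Fin.succ 0) s = Gq b := by
    have : (Fin.succ 0 : Fin (m + 2)) = 1 := rfl
    rw [this]
    simp only [hf, Gq, if_neg h01, if_true]
  have e2 : ∀ i : Fin m, ∫ s, f i.succ.succ s = Gq 0 := by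
    intro i
    have g0 : i.succ.succ ≠ (0 : Fin (m + 2)) := Fin.succ_ne_zero _
    have g1 : i.succ.succ ≠ (1 : Fin (m + 2)) := by
      intro h
      have := congrArg Fin.val h
      simp at this
    simp only [hf, Gq, if_neg g0, if_neg g1, pow_zero]
  rw [e0, e1]
  simp only [e2, Finset.prod_const, Finset.card_univ, Fintype.card_fin]

/-- sphere moments -/
lemma sab_MO (m a b : ℕ) :
    SI (fun w : E (m + 2) => |w 0| * w 0 ^ a * w 1 ^ b) * Jg (m + 2 + a + b) =
      Aq a * (Gq b * Gq 0 ^ m) := by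
  rw [← gint_MO]
  have := integral_polar (n := m + 2) (by omega)
    (fun w : E (m + 2) => |w 0| * w 0 ^ a * w 1 ^ b) (1 + a + b)
    (fun r => Real.exp (-(r ^ 2 / 2))) (by
      intro c hc x _
      simp only [PiLp.smul_apply, smul_eq_mul, abs_mul, abs_of_pos hc, mul_pow]
      ring)
  rw [this, show m + 2 - 1 + (1 + a + b) = m + 2 + a + b by omega]
  rfl

lemma cont_MO (m a b : ℕ) : Continuous (fun w : E (m + 2) => |w 0| * w 0 ^ a * w 1 ^ b) := by
  fun_prop

lemma basis_MO (m : ℕ) (u v : E (m + 2)) (hu : ‖u‖ = 1) (hv : ‖v‖ = 1)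
    (huv : (inner ℝ u v : ℝ) = 0) :
    ∃ b : OrthonormalBasis (Fin (m + 2)) ℝ (E (m + 2)), b 0 = u ∧ b 1 = v := by
  have h01 : (0 : Fin (m + 2)) ≠ 1 := by
    intro h
    have := congrArg Fin.val h
    simp at this
  let f : Fin (m + 2) → E (m + 2) := fun i => if i = 0 then u else v
  have hf0 : f 0 = u := by simp [f]
  have hf1 : f 1 = v := by
    show (if (1 : Fin (m + 2)) = 0 then u else v) = v
    rw [if_neg h01.symm]
  have horth : Orthonormal ℝ (({0, 1} : Set (Fin (m + 2))).domRestrict f) := by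
    rw [orthonormal_iff_ite]
    rintro ⟨i, hi⟩ ⟨j, hj⟩
    have hi' : i = 0 ∨ i = 1 := by
      simpa only [Set.mem_insert_iff, Set.mem_singleton_iff] using hi
    have hj' : j = 0 ∨ j = 1 := by
      simpa only [Set.mem_insert_iff, Set.mem_singleton_iff] using hj
    have key : (inner ℝ (f i) (f j) : ℝ) = if i = j then 1 else 0 := by
      rcases hi' with h1 | h1
      · rcases hj' with h2 | h2
        · rw [h1, h2, if_pos rfl, hf0, real_inner_self_eq_norm_sq, hu]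
          norm_num
        · rw [h1, h2, if_neg h01, hf0, hf1, huv]
      · rcases hj' with h2 | h2
        · rw [h1, h2, if_neg h01.symm, hf0, hf1, real_inner_comm, huv]
        · rw [h1, h2, if_pos rfl, hf1, real_inner_self_eq_norm_sq, hv]
          norm_num
    have e : ((⟨i, hi⟩ : ({0, 1} : Set (Fin (m + 2)))) = ⟨j, hj⟩) ↔ i = j :=
      Subtype.mk_eq_mk
    simp only [e]
    exact key
  obtain ⟨b, hb⟩ := horth.exists_orthonormalBasis_extension_of_card_eq (ι := Fin (m + 2))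
    (by simp)
  refine ⟨b, ?_, ?_⟩
  · rw [hb 0 (Or.inl rfl), hf0]
  · rw [hb 1 (Or.inr rfl), hf1]

lemma exists_perp_MO (m : ℕ) (u : E (m + 2)) (hu : ‖u‖ = 1) :
    ∃ q : E (m + 2), ‖q‖ = 1 ∧ (inner ℝ u q : ℝ) = 0 := by
  let f : Fin (m + 2) → E (m + 2) := fun _ => u
  have horth : Orthonormal ℝ (({0} : Set (Fin (m + 2))).domRestrict f) := by
    rw [orthonormal_iff_ite]
    rintro ⟨i, hi⟩ ⟨j, hj⟩
    rw [Set.mem_singleton_iff] at hi hj
    subst hi hj
    simp only [if_true]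
    show (inner ℝ u u : ℝ) = 1
    rw [real_inner_self_eq_norm_sq, hu]
    norm_num
  obtain ⟨b, hb⟩ := horth.exists_orthonormalBasis_extension_of_card_eq (ι := Fin (m + 2))
    (by simp)
  have h01 : (0 : Fin (m + 2)) ≠ 1 := by
    intro h
    have := congrArg Fin.val h
    simp at this
  refine ⟨b 1, b.norm_eq_one 1, ?_⟩
  have h0 : b 0 = u := hb 0 rfl
  rw [← h0]
  exact b.inner_eq_zero h01

/-- coordinates: `x = α u + β q` -/
lemma coord_MO (m : ℕ) (u x : E (m + 2)) (hu : ‖u‖ = 1) :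
    ∃ (q : E (m + 2)) (β : ℝ), ‖q‖ = 1 ∧ (inner ℝ u q : ℝ) = 0 ∧
      x = (inner ℝ u x : ℝ) • u + β • q := by
  by_cases hr : x - (inner ℝ u x : ℝ) • u = 0
  · obtain ⟨q, hq1, hq2⟩ := exists_perp_MO m u hu
    refine ⟨q, 0, hq1, hq2, ?_⟩
    rw [zero_smul, add_zero]
    exact sub_eq_zero.1 hr
  · set r := x - (inner ℝ u x : ℝ) • u with hrdef
    have hrn : ‖r‖ ≠ 0 := norm_ne_zero_iff.2 hr
    refine ⟨‖r‖⁻¹ • r, ‖r‖, ?_, ?_, ?_⟩
    · rw [norm_smul, norm_inv, norm_norm, inv_mul_cancel₀ hrn]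
    · rw [inner_smul_right, hrdef, inner_sub_right, inner_smul_right, real_inner_self_eq_norm_sq, hu]
      ring
    · rw [smul_smul, mul_inv_cancel₀ hrn, one_smul, hrdef]
      abel

lemma rot_MO (m : ℕ) (u q : E (m + 2)) (hu : ‖u‖ = 1) (hq : ‖q‖ = 1)
    (huq : (inner ℝ u q : ℝ) = 0) (α β : ℝ) (k : ℕ) :
    SI (fun w : E (m + 2) => |(inner ℝ u w : ℝ)| * (inner ℝ (α • u + β • q) w : ℝ) ^ k) =
      SI (fun w : E (m + 2) => |w 0| * (α * w 0 + β * w 1) ^ k) := by
  obtain ⟨b, hb0, hb1⟩ := basis_MO m u q hu hq huq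
  have e0 : ∀ w, b.repr w 0 = (inner ℝ u w : ℝ) := by
    intro w
    rw [b.repr_apply_apply, hb0]
  have e1 : ∀ w, b.repr w 1 = (inner ℝ q w : ℝ) := by
    intro w
    rw [b.repr_apply_apply, hb1]
  unfold SI
  refine Eq.trans ?_ (sphere_integral_comp b.repr
    (fun w : E (m + 2) => |w 0| * (α * w 0 + β * w 1) ^ k))
  refine integral_congr_ae (Filter.Eventually.of_forall fun w => ?_)
  simp only [e0, e1, inner_add_left, real_inner_smul_left]

lemma SI_add_MO {n : ℕ} {f g : E n → ℝ} (hf : Continuous f) (hg : Continuous g) :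
    SI (fun w => f w + g w) = SI f + SI g := by
  unfold SI
  exact integral_add (sphere_integrable hf.continuousOn) (sphere_integrable hg.continuousOn)

lemma SI_mul_MO {n : ℕ} (c : ℝ) (f : E n → ℝ) : SI (fun w => c * f w) = c * SI f := by
  unfold SI
  exact integral_const_mul _ _

/-- `S a b` -/
noncomputable def Sm (m a b : ℕ) : ℝ := SI (fun w : E (m + 2) => |w 0| * w 0 ^ a * w 1 ^ b)

lemma two_MO (m : ℕ) (α β : ℝ) :
    SI (fun w : E (m + 2) => |w 0| * (α * w 0 + β * w 1) ^ 2) =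
      α ^ 2 * Sm m 2 0 + 2 * α * β * Sm m 1 1 + β ^ 2 * Sm m 0 2 := by
  have h : (fun w : E (m + 2) => |w 0| * (α * w 0 + β * w 1) ^ 2) = fun w =>
      (α ^ 2 * (|w 0| * w 0 ^ 2 * w 1 ^ 0) + 2 * α * β * (|w 0| * w 0 ^ 1 * w 1 ^ 1)) +
        β ^ 2 * (|w 0| * w 0 ^ 0 * w 1 ^ 2) := by
    funext w
    ring
  rw [h, SI_add_MO (by fun_prop) (by fun_prop), SI_add_MO (by fun_prop) (by fun_prop),
    SI_mul_MO, SI_mul_MO, SI_mul_MO]
  rfl

lemma four_MO (m : ℕ) (α β : ℝ) :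
    SI (fun w : E (m + 2) => |w 0| * (α * w 0 + β * w 1) ^ 4) =
      α ^ 4 * Sm m 4 0 + 4 * α ^ 3 * β * Sm m 3 1 + 6 * α ^ 2 * β ^ 2 * Sm m 2 2 +
        4 * α * β ^ 3 * Sm m 1 3 + β ^ 4 * Sm m 0 4 := by
  have h : (fun w : E (m + 2) => |w 0| * (α * w 0 + β * w 1) ^ 4) = fun w =>
      (((α ^ 4 * (|w 0| * w 0 ^ 4 * w 1 ^ 0) + 4 * α ^ 3 * β * (|w 0| * w 0 ^ 3 * w 1 ^ 1)) +
        6 * α ^ 2 * β ^ 2 * (|w 0| * w 0 ^ 2 * w 1 ^ 2)) +
        4 * α * β ^ 3 * (|w 0| * w 0 ^ 1 * w 1 ^ 3)) +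
        β ^ 4 * (|w 0| * w 0 ^ 0 * w 1 ^ 4) := by
    funext w
    ring
  rw [h, SI_add_MO (by fun_prop) (by fun_prop), SI_add_MO (by fun_prop) (by fun_prop),
    SI_add_MO (by fun_prop) (by fun_prop), SI_add_MO (by fun_prop) (by fun_prop),
    SI_mul_MO, SI_mul_MO, SI_mul_MO, SI_mul_MO, SI_mul_MO]
  rfl

theorem hMO : StMO := by
  intro m hm
  have hG0 : 0 < Gq 0 := by
    have := Gq_even 0
    rw [mul_zero] at this
    rw [this]
    have := Jg_pos 0
    linarith
  have hA0 : Aq 0 = 2 * Jg 1 := by simpa using Aq_even 0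
  have hA2 : Aq 2 = 4 * Jg 1 := by
    have h1 := Aq_even 1
    have h2 := Jg_succ 1
    norm_num at h1 h2
    rw [h1, h2]
    ring
  have hA4 : Aq 4 = 16 * Jg 1 := by
    have h1 := Aq_even 2
    have h2 := Jg_succ 1
    have h3 := Jg_succ 3
    norm_num at h1 h2 h3
    rw [h1, h3, h2]
    ring
  have hG2 : Gq 2 = Gq 0 := by
    have h0 := Gq_even 0
    have h1 := Gq_even 1
    have h2 := Jg_succ 0
    norm_num at h0 h1 h2
    rw [h1, h2, h0]
  have hG4 : Gq 4 = 3 * Gq 0 := by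
    have h0 := Gq_even 0
    have h1 := Gq_even 2
    have h2 := Jg_succ 0
    have h3 := Jg_succ 2
    norm_num at h0 h1 h2 h3
    rw [h1, h3, h2, h0]
    ring
  have hA1 : Aq 1 = 0 := Aq_odd 0
  have hA3 : Aq 3 = 0 := Aq_odd 1
  have hJ1 := Jg_pos 1
  have hJm := Jg_pos (m + 2)
  have hJ4 : Jg (m + 2 + 2) = ((m : ℝ) + 3) * Jg (m + 2) := by
    rw [Jg_succ]
    push_cast
    ring
  have hJ6 : Jg (m + 2 + 4) = ((m : ℝ) + 5) * (((m : ℝ) + 3) * Jg (m + 2)) := by
    rw [show m + 2 + 4 = (m + 2 + 2) + 2 by ring, Jg_succ, hJ4]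
    push_cast
    ring
  have hm3 : (0 : ℝ) < (m : ℝ) + 3 := by positivity
  have hm5 : (0 : ℝ) < (m : ℝ) + 5 := by positivity
  set c : ℝ := Sm m 0 0 with hc
  have s00 : c * Jg (m + 2) = 2 * Jg 1 * (Gq 0 * Gq 0 ^ m) := by
    rw [← hA0]
    exact sab_MO m 0 0
  have hcpos : 0 < c := by
    have h1 : 0 < c * Jg (m + 2) := by
      rw [s00]
      positivity
    exact pos_of_mul_pos_left h1 hJm.le
  have cancel : ∀ s t : ℝ, s * Jg (m + 2) = t * Jg (m + 2) → s = t := fun s t h =>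
    mul_right_cancel₀ hJm.ne' h
  have s20 : Sm m 2 0 = 2 * c / (m + 3) := by
    have h := sab_MO m 2 0
    change Sm m 2 0 * Jg (m + 2 + 2) = _ at h
    rw [hJ4, hA2] at h
    rw [eq_div_iff hm3.ne']
    apply cancel
    linarith
  have s02 : Sm m 0 2 = c / (m + 3) := by
    have h := sab_MO m 0 2
    change Sm m 0 2 * Jg (m + 2 + 2) = _ at h
    rw [hJ4, hA0, hG2] at h
    rw [eq_div_iff hm3.ne']
    apply cancel
    linarith
  have s11 : Sm m 1 1 = 0 := by
    have h := sab_MO m 1 1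
    rw [hA1, zero_mul] at h
    exact (mul_eq_zero.1 h).resolve_right (Jg_pos _).ne'
  have s31 : Sm m 3 1 = 0 := by
    have h := sab_MO m 3 1
    rw [hA3, zero_mul] at h
    exact (mul_eq_zero.1 h).resolve_right (Jg_pos _).ne'
  have s13 : Sm m 1 3 = 0 := by
    have h := sab_MO m 1 3
    rw [hA1, zero_mul] at h
    exact (mul_eq_zero.1 h).resolve_right (Jg_pos _).ne'
  have s40 : Sm m 4 0 = 8 * c / ((m + 3) * (m + 5)) := by
    have h := sab_MO m 4 0
    change Sm m 4 0 * Jg (m + 2 + 4) = _ at h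
    rw [hJ6, hA4] at h
    rw [eq_div_iff (mul_pos hm3 hm5).ne']
    apply cancel
    linarith
  have s22 : Sm m 2 2 = 2 * c / ((m + 3) * (m + 5)) := by
    have h := sab_MO m 2 2
    change Sm m 2 2 * Jg (m + 2 + 4) = _ at h
    rw [hJ6, hA2, hG2] at h
    rw [eq_div_iff (mul_pos hm3 hm5).ne']
    apply cancel
    linarith
  have s04 : Sm m 0 4 = 3 * c / ((m + 3) * (m + 5)) := by
    have h := sab_MO m 0 4
    change Sm m 0 4 * Jg (m + 2 + 4) = _ at h
    rw [hJ6, hA0, hG4] at h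
    rw [eq_div_iff (mul_pos hm3 hm5).ne']
    apply cancel
    linarith
  refine ⟨c, hcpos, ?_⟩
  intro u x hu
  obtain ⟨q, β, hq, huq, hx⟩ := coord_MO m u x hu
  set α : ℝ := (inner ℝ u x : ℝ) with hα
  have hnorm : ‖x‖ ^ 2 = α ^ 2 + β ^ 2 := by
    rw [← real_inner_self_eq_norm_sq, hx]
    simp only [inner_add_left, inner_add_right, real_inner_smul_left, inner_smul_right,
      real_inner_self_eq_norm_sq, hu, hq, huq, real_inner_comm u q]
    have : (inner ℝ q u : ℝ) = 0 := by rw [real_inner_comm, huq]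
    try rw [this]
    ring
  have hnorm4 : ‖x‖ ^ 4 = (α ^ 2 + β ^ 2) ^ 2 := by
    rw [← hnorm]
    ring
  refine ⟨?_, ?_, ?_⟩
  · have h := rot_MO m u q hu hq huq α β 0
    simp only [pow_zero, mul_one] at h
    rw [h]
    show SI (fun w : E (m + 2) => |w 0|) = SI (fun w : E (m + 2) => |w 0| * w 0 ^ 0 * w 1 ^ 0)
    simp only [pow_zero, mul_one]
  · have h := rot_MO m u q hu hq huq α β 2
    rw [← hx] at h
    rw [h, two_MO, s20, s11, s02, hnorm]
    field_simp
    ring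
  · have h := rot_MO m u q hu hq huq α β 4
    rw [← hx] at h
    rw [h, four_MO, s40, s31, s22, s13, s04, hnorm, hnorm4]
    field_simp
    ring

end Pool.Agent.Helper6.MU
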