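import Pool.Agent.Helper62.MU.St

/-! Project MU (MP_ae3a4d_gt): module ROT (rotation to the standard position). -/

set_option autoImplicit false

open MeasureTheory Metric Set Filter Topology Polynomial
open scoped RealInnerProductSpace ContDiff

namespace Pool.Agent.Helper6.MU

open Pool.Agent.Helper62.MU Pool.Agent.Helper62.Mink

theorem exists_basis_ROT (m : ℕ) (u v : E (m + 2)) (hu : ‖u‖ = 1) (hv : ‖v‖ = 1)
    (huv : (inner ℝ u v : ℝ) = 0) :
    ∃ b : OrthonormalBasis (Fin (m + 2)) ℝ (E (m + 2)), b 0 = u ∧ b 1 = v := by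
  have h01 : (0 : Fin (m + 2)) ≠ 1 := by
    intro h
    have := congrArg Fin.val h
    simp at this
  let f : Fin (m + 2) → E (m + 2) := fun i => if i = 0 then u else v
  have hf0 : f 0 = u := by simp [f]
  have hf1 : f 1 = v := by
    show (if (1 : Fin (m + 2)) = 0 then u else v) = v
    rw [if_neg h01.symm]
  have horth : Orthonormal ℝ (({0, 1} : Set (Fin (m + 2))).domRestrict f) := by
    rw [orthonormal_iff_ite]
    rintro ⟨i, hi⟩ ⟨j, hj⟩
    have hi' : i = 0 ∨ i = 1 := by
      simpa only [Set.mem_insert_iff, Set.mem_singleton_iff] using hi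
    have hj' : j = 0 ∨ j = 1 := by
      simpa only [Set.mem_insert_iff, Set.mem_singleton_iff] using hj
    have key : (inner ℝ (f i) (f j) : ℝ) = if i = j then 1 else 0 := by
      rcases hi' with h1 | h1
      · rcases hj' with h2 | h2
        · rw [h1, h2, if_pos rfl, hf0, real_inner_self_eq_norm_sq, hu]
          norm_num
        · rw [h1, h2, if_neg h01, hf0, hf1, huv]
      · rcases hj' with h2 | h2
        · rw [h1, h2, if_neg h01.symm, hf0, hf1, real_inner_comm, huv]
        · rw [h1, h2, if_pos rfl, hf1, real_inner_self_eq_norm_sq, hv]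
          norm_num
    have e : ((⟨i, hi⟩ : ({0, 1} : Set (Fin (m + 2)))) = ⟨j, hj⟩) ↔ i = j :=
      Subtype.mk_eq_mk
    simp only [e]
    exact key
  obtain ⟨b, hb⟩ := horth.exists_orthonormalBasis_extension_of_card_eq (ι := Fin (m + 2))
    (by simp)
  refine ⟨b, ?_, ?_⟩
  · rw [hb 0 (Or.inl rfl), hf0]
  · rw [hb 1 (Or.inr rfl), hf1]

theorem hROT : StROT := by
  intro m p H h hh hsm u v hu hv huv
  obtain ⟨b, hb0, hb1⟩ := exists_basis_ROT m u v hu hv huv
  have e0 : ∀ w, b.repr w 0 = (inner ℝ u w : ℝ) := by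
    intro w
    rw [b.repr_apply_apply, hb0]
  have e1 : ∀ w, b.repr w 1 = (inner ℝ v w : ℝ) := by
    intro w
    rw [b.repr_apply_apply, hb1]
  have hS : Sublinear (fun w : E (m + 2) => h (b.repr.symm w)) :=
    { pos_hom := by
        intro c hc x
        simp only [map_smul]
        exact hh.pos_hom c hc _
      add_le := by
        intro x y
        simp only [map_add]
        exact hh.add_le _ _ }
  have hC : ContDiffOn ℝ ∞ (fun w : E (m + 2) => h (b.repr.symm w)) {0}ᶜ := by
    refine hsm.comp (b.repr.symm.contDiff.contDiffOn) ?_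
    intro x hx
    rw [mem_compl_iff, mem_singleton_iff] at hx ⊢
    intro h0
    apply hx
    have : b.repr (b.repr.symm x) = b.repr 0 := by rw [h0]
    simpa using this
  have key := H _ hS hC
  unfold SI at key
  rw [← sphere_integral_comp b.repr] at key
  refine le_of_le_of_eq key (integral_congr_ae (Filter.Eventually.of_forall fun w => ?_))
  simp only [Kst, LinearIsometryEquiv.symm_apply_apply, e0, e1]

end Pool.Agent.Helper6.MU
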